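import Pool.Agent.Y712.AJ.Qp

/-!
# Injectivity of the Abel-Jacobi maps: affine varieties, canonical classes and tangent bundles

Let `k` be the field of algebraic numbers. The question is whether the Abel-Jacobi maps
`Φ : CH^n_hom(V)_ℚ ⟶ J^n(V(ℂ))_ℚ` are injective for **all** smooth quasi-projective varieties `V` over
`k` and all `n`. Call a class `a` bad if it is homologically trivial, `Φ(a) = 0` and `a ≠ 0`. Let `M` be
any infinite set of exponents. We prove that the following are equivalent:

1. `Φ` is injective for all smooth quasi-projective `V` and all `n`;
2. for all smooth **affine** `V` and all line bundles `L` on `V` the classes `c_1(L)^n`, `n ∈ M`, are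
   not bad;
3. the same for the smooth affine `V` with trivial tangent bundle only;
4. for all smooth affine `V` the powers `K_V^n`, `n ∈ M`, of the **canonical class** are not bad;
5. for all vector bundles `E` on smooth affine `V`: if all Chern classes `c_i(E)`, `i > 0`, are in the kernel
   of the Abel-Jacobi maps, they all vanish (that is, some multiple of `E` is stably trivial);
6. the same for the **tangent bundle** of all smooth affine `V` only;
7. the classes of smooth closed subvarieties `Z`, of codimension `n ∈ M`, of the smooth affine `V` with
   trivial tangent bundle are not bad.

Proof. By Jouanolou's trick `V` may be replaced by an affine bundle over it which is an affine variety.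
There every class of positive codimension is, up to a factor, the Chern character of a vector bundle, up
to the rank. This gives 5 ⟹ 1. For 2 ⟹ 5 consider the equation of the projective bundle `P(E)`: it
expresses `x^r`, `r` the rank of `E`, by the Chern classes of `E`, and if `x^r = 0` they vanish; then apply
Jouanolou's trick to `P(E)`. For 4 ⟹ 2 and 6 ⟹ 5 let `F` be the bundle with the Chern character
`ch(E) - ch(T_V)` and consider the tangent bundle of the total space of `F`. For 3 ⟹ 2 consider the total
space of a bundle `F` with `T_V ⊕ F` trivial, for 7 ⟹ 3 the zero set of `n` general sections of `L`.
-/

namespace Pool.Agent.Results.MP_537ea0_ag.AffineVarieties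

open Pool.Agent.Y712.QP

/-- **The injectivity of the Abel-Jacobi maps for all smooth quasi-projective varieties, in all
codimensions, is equivalent to the injectivity on each of the following: the powers of the classes of
line bundles, with exponents in an infinite set, on smooth affine varieties (with trivial tangent
bundle); the powers of the canonical classes of smooth affine varieties; the Chern classes of vector
bundles, or only of the tangent bundles, of smooth affine varieties; the classes of smooth subvarieties
of smooth affine varieties with trivial tangent bundle.** -/
theorem result {k : Type} [Field k] {D : Data k} (hG : IsGraded D) (hJ : IsAJ D)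
    (hB : IsBundleTheory D) (hC : HasConstructions D) {M : Set ℕ} (hM : M.Infinite) :
    [Injectivity D, LinePowers D M, LinePowersTriv D M, CanonicalPowers D M, Bundles D,
      TangentBundles D, Subvarieties D M].TFAE :=
  main hG hJ hB hC hM

end Pool.Agent.Results.MP_537ea0_ag.AffineVarieties
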