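import Pool.Agent.Y107.KO.Main

/-!
# Injectivity of the Abel-Jacobi maps and `K_1` of hypersurfaces
-/

set_option autoImplicit false

open CategoryTheory AlgebraicGeometry MvPolynomial

namespace Pool.Agent.Results.MP_537ea0_ag.KOneOfHypersurfaces

open Pool.Agent.Y116.UV Pool.Agent.Y101.Ds Pool.Agent.Y101.Th Pool.Agent.Y107.KO

/-- Every element of the field is a quotient of integers (`k = ℚ` in characteristic zero). -/
def Fractions (k : Type) [Field k] : Prop := ∀ x : k, ∃ d m : ℤ, IsUnit (d : k) ∧ (d : k) * x = m

/-- **Abel-Jacobi maps and `K_1` of hypersurfaces.** For a family `t = (t_ijl)` of elements of `k` let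
`V_t` be the zero set of the polynomials `q_i = ∑ t_ijl y_j z_l`, where `y_none = z_none = 1`, and let
`S_t` be the smooth affine hypersurface `∑ w_i q_i(y, z) = 1`.

1. The Abel-Jacobi maps (on the cycles of all codimensions modulo rational equivalence, tensored with
   `ℚ`) are injective for all smooth quasi-projective schemes over `k` if and only if the regulators are
   injective on the groups `CH^j(S_t, 1)_ℚ` for all `t` with smooth `V_t`.
2. If the elements of `k` are quotients of integers, then families `t` of zeros and ones are
   sufficient.
3. For each smooth quasi-projective `X` there is such a `t` (with coefficients `0` and `1` in the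
   situation of 2.) for which the Abel-Jacobi maps of `X` are injective if and only if the regulators
   are injective on the groups `CH^j(S_t, 1)_ℚ`. -/
theorem result {k : Type} [Field k] (T : Reg k) (hT : IsReg T) :
    (AbelJacobiInjective T ↔ KOneInjective T) ∧
    (Fractions k → (AbelJacobiInjective T ↔ ZeroOneKOneInjective T)) ∧
    ∀ X : Sch k, QuasiProjective X →
      ∃ (a b c : ℕ) (t : Fin a → Option (Fin b) → Option (Fin c) → k),
        (Fractions k → ∀ i j l, t i j l = 0 ∨ t i j l = 1) ∧ Smooth (zeroSum t).hom ∧
          (Inj T 0 X ↔ Inj T 1 (sumS t)) :=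
  ⟨all_iff hT, fun hk => frac_iff hk hT, fun X hX => alone hT X hX⟩

end Pool.Agent.Results.MP_537ea0_ag.KOneOfHypersurfaces
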