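import Pool.Agent.Y148.OP.Tfae

/-!
# Injectivity of the Abel-Jacobi map on quasi-projective varieties and the standard conjecture B

Question Q1 asks whether the rational Abel-Jacobi map is injective on the homologically trivial
cycles of all smooth *quasi-projective* varieties `V` over the algebraic closure of `ℚ`.  We
determine what this says for the varieties

  `V(N, r)` = complement of the zero section of `N ⊕ ⋯ ⊕ N` (`r` summands),

`N` a line bundle on a smooth projective variety `Y` whose class `v` satisfies the hard Lefschetz
theorem (`v` ample, or `v = u × X - X × u` on `X × X`, `u` ample on `X`, ...).  Theorem: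

* (an explicit element of the kernel) let `v` be ample on `X`, `d = dim X`, `N` the line bundle on
  `X × X` with the class `v × X - X × v`.  The class `ξ` of `Δ_* v` in `CH^(d+1)(V(N, 2))` is
  homologically trivial and its Abel-Jacobi image is zero (this is unconditional); if `ξ = 0` then
  the Lefschetz standard conjecture B holds for `(X, v)`; conversely B for `(X, v)` and the
  injectivity of the Abel-Jacobi map on `CH^(d+1)(X × X)` imply `ξ = 0`;
* the following are equivalent: (1) Q1 holds for all `V(N, r)` and all codimensions; (2) Q1 holds
  for all smooth projective varieties, and `ξ = 0` for all `(X, v)`; (3) Q1 holds for all smooth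
  projective varieties, and the Lefschetz standard conjecture B holds.

So Q1 implies the Lefschetz standard conjecture (hence all the standard conjectures, in
characteristic zero), already through its cases `V(N, 2)`, `N` on `X × X`; and for all the varieties
`V(N, r)` together it is equivalent to a statement on projective varieties: projective Q1 and B.

## The formulation

`C` is the theory of the Chow groups with rational coefficients, `D` the theory of the Deligne
(absolute Hodge) cohomology groups `D^k(X) = H^(2k)_D(X(ℂ), ℚ(k))`, extensions of the groups of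
Hodge classes by the groups `J^k(X) ⊗ ℚ`, `φ : C → D` the cycle map, whose restriction to the
homologically trivial cycles is the Abel-Jacobi map, and `H` is the cohomology.  The formal
properties of these theories are those of `IsChowProj` and `IsWeilProj`; the only other property
used is `JacobianProperty`: the action of correspondences on `J^k(X)` factors through the action on
`H^(2k-1)(X)`.

The geometric facts which are built into the definition `InjectivePunctured` are: for
`V = V(N, r)`, `CH^m(V) = CH^m(Y) / v^r CH^(m-r)(Y)` (localization), and the kernel of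
`D^m(Y) → H^(2m)_D(V, ℚ(m))` is `v^r D^(m-r)(Y)` (Gysin sequence).  So a class `y ∈ CH^m(Y)`
restricts to a homologically trivial cycle on `V` with trivial Abel-Jacobi image if and only if
`φ(y) = v^r b` for some `b ∈ D^(m-r)(Y)`, and to zero if and only if `y = v^r z` for some
`z ∈ CH^(m-r)(Y)`.

## The proof

Let `ℓ = Δ_* v` and let `λ₀ ∈ D^(d-1)(X × X)` be a lift of the Hodge class of the operator `Λ`. The
multiplication by `v × X - X × v` is, up to sign, the commutator with `ℓ` in the ring of
self-correspondences.  Put `h₀ = [ℓ, λ₀]`.  Then `[h₀, ℓ] - 2ℓ` is in `J^(d+1)(X × X)`, and by the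
theory of `sl2` (hard Lefschetz on `H^(2d+1)(X × X)`, for the class `v × X - X × v`) it is `[ℓ, j]`
for some `j ∈ J^d(X × X)`.  With `h = h₀ + j` one has `[h, ℓ] = 2ℓ`.  Let `u = 2λ₀ + [h, λ₀]`.  By
the Jacobi identity `[ℓ, u] = -[h₀, j]`, which is `j`, since `J^d(X × X)` depends only on
`H^(2d-1)(X × X)`, where `[h₀, -]` is the multiplication by `-1`.  So `λ = λ₀ + u` satisfies
`[[ℓ, λ], ℓ] = 2ℓ` exactly, that is, `ℓ = (v × X - X × v)² · (-λ/2)` in Deligne cohomology: the
Abel-Jacobi image of `ξ` is zero.  If `ξ = 0` then `ℓ = (v × X - X × v)² · z` for a cycle `z`, and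
`-2z` induces `Λ`, since `(v × X - X × v)²` is injective on `H^(2d-2)(X × X)`.  If B holds, all the
steps above can be done with images of algebraic cycles.  Finally (3) implies (1) by the theory of
`sl2` for the algebraic classes in the Hodge classes and for the algebraic elements of `J(Y)`.
-/

open CategoryTheory AlgebraicGeometry

universe u v w w'

namespace Pool.Agent.Results.MP_537ea0_ag.PuncturedBundles

open Pool.Agent.H914 Pool.Agent.W492.BB Pool.Agent.TH133 Pool.Agent.Y148.OP

/-- Injectivity of the Abel-Jacobi map on punctured vector bundles and the Lefschetz standard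
conjecture. -/
theorem result {k : Type u} [Field k] {𝒱 : VarClass k}
    (C : TheoryData.{u, v, 0} 𝒱 ℚ) [IsChowProj C]
    (D : TheoryData.{u, w', 0} 𝒱 ℚ) [IsChowProj D] (φ : TheoryHom C D)
    {K : Type w} [Field K] (H : WeilTheoryData.{u, w', w} D K) [IsWeilProj H]
    (hJ : JacobianProperty H) (hL : ∀ X : 𝒱.Obj, ∃ v : C.A X, HardLefschetz φ H v) :
    (∀ (X : 𝒱.Obj) (v : C.A X), HardLefschetz φ H v →
      XiKilled φ v ∧ (XiZero v → StandardB φ H v) ∧
      (StandardB φ H v → InjectiveProjective φ (X.prod X) (X.dim + 1) → XiZero v)) ∧
    List.TFAE [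
      ∀ (Y : 𝒱.Obj) (v : C.A Y), HardLefschetz φ H v → ∀ (r : ℕ) (m : ℤ),
        InjectivePunctured φ v r m,
      (∀ (Y : 𝒱.Obj) (m : ℤ), InjectiveProjective φ Y m) ∧
        ∀ (X : 𝒱.Obj) (v : C.A X), HardLefschetz φ H v → XiZero v,
      (∀ (Y : 𝒱.Obj) (m : ℤ), InjectiveProjective φ Y m) ∧
        ∀ (X : 𝒱.Obj) (v : C.A X), HardLefschetz φ H v → StandardB φ H v] :=
  ⟨fun X v hv => ⟨xi_killed hJ hv, standardB_of_xi hv, fun hB hI =>
    xi_of_standardB hJ hv.1 hB hI⟩, (main_theorem hJ hL).2⟩

end Pool.Agent.Results.MP_537ea0_ag.PuncturedBundles
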